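import Pool.Agent.Y871.LW.TopE
import Pool.Agent.Y86.LW.Phi
import Pool.Agent.Y977.LW.Many

/-!
# Szemerédi's theorem for the primes up to `m (log m) ^ B` in almost all residue classes

(I) For EVERY large modulus `m` with bounded `m / φ(m)`, and every length `K ≥ (log m) ^ B`:
(a) for all but `ε φ(m)` of the reduced residue classes `c` modulo `m`, represented in any interval of
length `m`, all but few elements of every set of primes `c + m t`, `t ≤ K`, lie in `k`-term progressions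
inside the set; (b) for at least `(1 / 4 - ε) φ(m)` of the reduced classes all but `ε` times the number
of all these primes do, and there are such primes (`K ≤ m ^ κ`).

(II) For all but `ε H²` of the pairs `c ≤ m ≤ H` with `gcd (c, m) = 1` and all lengths `K` between
`(log H) ^ B` and `H / (log H) ^ B`: the number of primes `c + m t`, `t ≤ K`, is the expected one, and
all but `ε` times this number of the elements of every set of such primes lie in `k`-term progressions
inside the set.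
-/

set_option autoImplicit false

namespace Pool.Agent.Results.MP_e1dc24_nt.AlmostAllClasses

open Finset

/-- `n` is a term of a progression of `k` terms in `S` with a difference `1 ≤ d ≤ D`. -/
def InProgression (S : Finset ℕ) (k : ℕ) (D : ℝ) (n : ℕ) : Prop :=
  ∃ b d : ℕ, 1 ≤ d ∧ (d : ℝ) ≤ D ∧ (∀ j < k, b + j * d ∈ S) ∧ ∃ j < k, n = b + j * d

open Classical in
/-- The elements of `S` which do not lie in such a progression. -/
noncomputable def outside (S : Finset ℕ) (k : ℕ) (D : ℝ) : Finset ℕ :=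
  S.filter (fun n => ¬ InProgression S k D n)

/-- The `1 ≤ t ≤ K` for which `c + m t` is prime. -/
def primeArgs (c m K : ℕ) : Finset ℕ := (Icc 1 K).filter (fun t : ℕ => (c + m * t).Prime)

/-- The expected number of primes among the numbers `c + m t`, `1 ≤ t ≤ K`, for `c` prime to `m`. -/
noncomputable def expected (c m K : ℕ) : ℝ :=
  (m : ℝ) / (Nat.totient m : ℝ) * ∑ t ∈ Icc 1 K, 1 / Real.log ((c + m * t : ℕ) : ℝ)

/-- The number of the primes `c + m t`, `1 ≤ t ≤ K`, is the expected one up to a relative error `ε`, and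
in every set `S` of such `t` all elements, with the exception of at most `ε` times this number, lie in
progressions of `k` terms in `S` with a difference at most `D`. -/
def Holds (c m k : ℕ) (ε D : ℝ) (K : ℕ) : Prop :=
  |((primeArgs c m K).card : ℝ) - expected c m K| ≤ ε * expected c m K ∧
    ∀ S ⊆ primeArgs c m K, ((outside S k D).card : ℝ) ≤ ε * (primeArgs c m K).card

open Classical in
theorem part_one (k : ℕ) (R ε : ℝ) (hk : 1 ≤ k) (hε : 0 < ε) : ∃ B m₀ : ℕ, ∀ m K A : ℕ, m₀ ≤ m →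
    (m : ℝ) ≤ R * Nat.totient m → Real.log m ^ B ≤ K →
    (((Ioc A (A + m)).filter (fun c => ∃ S ⊆ primeArgs c m K,
      ε * K / Real.log m < (outside S k (Real.log m ^ B)).card)).card : ℝ) ≤ ε * Nat.totient m := by
  obtain ⟨R', hR'⟩ : ∃ R' : ℝ, R' = max R 1 := ⟨_, rfl⟩
  have hR1 : 1 ≤ R' := by rw [hR']; exact le_max_right _ _
  have hRR : R ≤ R' := by rw [hR']; exact le_max_left _ _
  have hR0 : 0 < R' := by linarith
  have hεR : 0 < ε / R' := by positivity
  have hεR1 : ε / R' ≤ ε := by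
    rw [div_le_iff₀ hR0]
    nlinarith
  obtain ⟨B, X₀, h⟩ := Pool.Agent.Y871.LW.apu_all k hk R' (ε / R') hR0 hεR
  refine ⟨B, max X₀ 3, fun m K A hm hmR hK => ?_⟩
  have hm0 : X₀ ≤ m := le_trans (le_max_left _ _) hm
  have hm3 : 3 ≤ m := le_trans (le_max_right _ _) hm
  have hm3' : (3 : ℝ) ≤ m := by exact_mod_cast hm3
  have hlog : 0 < Real.log m := Real.log_pos (by linarith)
  have hφ : (0 : ℝ) ≤ (Nat.totient m : ℝ) := Nat.cast_nonneg _
  have hmR' : (m : ℝ) ≤ R' * (Nat.totient m : ℝ) := hmR.trans (mul_le_mul_of_nonneg_right hRR hφ)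
  obtain ⟨Bad, hBad, hcov⟩ := h m K hm0 hK m (by omega) hmR' (A : ℤ)
  have h1 : ((Ioc A (A + m)).filter (fun c => ∃ S ⊆ primeArgs c m K,
      ε * K / Real.log m < (outside S k (Real.log m ^ B)).card)).card ≤ Bad.card := by
    apply card_le_card_of_injOn (fun c : ℕ => (c : ℤ))
    · intro c hc
      rw [mem_coe, mem_filter, mem_Ioc] at hc
      obtain ⟨hc1, S, hS, hS2⟩ := hc
      by_contra hcB
      have h2 := hcov (c : ℤ) (mem_Ioc.2 ⟨by exact_mod_cast hc1.1, by exact_mod_cast hc1.2⟩) hcB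
      have h3 : Pool.Agent.Y871.LW.pts (fun _ : Fin 1 => Polynomial.C (m : ℤ) * Polynomial.X)
          (fun _ => (c : ℤ)) 0 K = primeArgs c m K := by
        unfold Pool.Agent.Y871.LW.pts primeArgs
        rw [zero_add]
        ext t
        rw [mem_filter, mem_filter, mem_Ioc, mem_Icc]
        have h4 : ∀ l : Fin 1, (Polynomial.eval (t : ℤ) (Polynomial.C (m : ℤ) * Polynomial.X) + (c : ℤ)).natAbs
            = c + m * t := by
          intro _
          rw [Polynomial.eval_mul, Polynomial.eval_C, Polynomial.eval_X]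
          have h5 : (m : ℤ) * (t : ℤ) + (c : ℤ) = ((c + m * t : ℕ) : ℤ) := by
            push_cast
            ring
          rw [h5, Int.natAbs_natCast]
        constructor
        · rintro ⟨h6, h7⟩
          have h8 := h7 0
          rw [h4 0] at h8
          exact ⟨⟨h6.1, h6.2⟩, h8⟩
        · rintro ⟨h6, h7⟩
          refine ⟨⟨h6.1, h6.2⟩, fun l => ?_⟩
          rw [h4 l]
          exact h7
      rw [h3] at h2
      have h4 := h2 S hS (outside S k (Real.log m ^ B)) (filter_subset _ _)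
        (fun n hn => (mem_filter.1 hn).2)
      have h5 : ε / R' * K / Real.log m ≤ ε * K / Real.log m := by
        apply div_le_div_of_nonneg_right _ hlog.le
        exact mul_le_mul_of_nonneg_right hεR1 (Nat.cast_nonneg _)
      linarith
    · intro c _ c' _ hcc
      have h6 : (c : ℤ) = (c' : ℤ) := hcc
      exact_mod_cast h6
  calc (((Ioc A (A + m)).filter (fun c => ∃ S ⊆ primeArgs c m K,
        ε * K / Real.log m < (outside S k (Real.log m ^ B)).card)).card : ℝ) ≤ (Bad.card : ℝ) := by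
        exact_mod_cast h1
    _ ≤ ε / R' * m := hBad
    _ ≤ ε / R' * (R' * (Nat.totient m : ℝ)) := mul_le_mul_of_nonneg_left hmR' hεR.le
    _ = ε * Nat.totient m := by
        field_simp

open Classical in
theorem outside_mono (S : Finset ℕ) (k : ℕ) {D D' : ℝ} (h : D ≤ D') :
    (outside S k D').card ≤ (outside S k D).card := by
  apply card_le_card
  intro n hn
  unfold outside at hn ⊢
  rw [mem_filter] at hn ⊢
  refine ⟨hn.1, fun hc => hn.2 ?_⟩
  obtain ⟨b, d, h1, h2, h3⟩ := hc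
  exact ⟨b, d, h1, h2.trans h, h3⟩

open Classical in
theorem part_many
    (ε : ℝ) (hε : 0 < ε) : ∃ κ : ℝ, 0 < κ ∧ ∀ (k : ℕ) (R : ℝ), 1 ≤ k →
    ∃ B m₀ : ℕ, ∀ m K : ℕ, m₀ ≤ m → (m : ℝ) ≤ R * Nat.totient m → Real.log m ^ B ≤ K →
    (K : ℝ) ≤ (m : ℝ) ^ κ →
    (1 / 4 - ε) * (Nat.totient m : ℝ) ≤ (((Icc 1 m).filter (fun c => (primeArgs c m K).Nonempty ∧
      ∀ S ⊆ primeArgs c m K,
        ((outside S k (Real.log m ^ B)).card : ℝ) ≤ ε * (primeArgs c m K).card)).card : ℝ) := by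
  obtain ⟨η, κ, hη, hκ, B₁, m₁, hmany⟩ := Pool.Agent.Y977.LW.t_MANY (ε / 2) (by positivity)
  refine ⟨κ, hκ, fun k R hk => ?_⟩
  obtain ⟨ε₁, hε₁⟩ : ∃ ε₁ : ℝ, ε₁ = min (ε / 2) (ε * η) := ⟨_, rfl⟩
  have hε₁0 : 0 < ε₁ := by rw [hε₁]; positivity
  have hε₁1 : ε₁ ≤ ε / 2 := by rw [hε₁]; exact min_le_left _ _
  have hε₁2 : ε₁ ≤ ε * η := by rw [hε₁]; exact min_le_right _ _
  obtain ⟨B₂, m₂, hone⟩ := part_one k R ε₁ hk hε₁0
  refine ⟨B₁ + B₂, max (max m₁ m₂) 3, fun m K hm hmR hK hKm => ?_⟩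
  have hm1 : m₁ ≤ m := le_trans (le_trans (le_max_left _ _) (le_max_left _ _)) hm
  have hm2 : m₂ ≤ m := le_trans (le_trans (le_max_right _ _) (le_max_left _ _)) hm
  have hm3 : 3 ≤ m := le_trans (le_max_right _ _) hm
  have hm3' : (3 : ℝ) ≤ m := by exact_mod_cast hm3
  have hl1 : 1 ≤ Real.log m := by
    rw [Real.le_log_iff_exp_le (by linarith)]
    linarith [Real.exp_one_lt_d9]
  have hl0 : 0 < Real.log m := by linarith
  have hp1 : Real.log m ^ B₁ ≤ Real.log m ^ (B₁ + B₂) := pow_le_pow_right₀ hl1 (by omega)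
  have hp2 : Real.log m ^ B₂ ≤ Real.log m ^ (B₁ + B₂) := pow_le_pow_right₀ hl1 (by omega)
  have hK0 : (1 : ℝ) ≤ K := (one_le_pow₀ hl1).trans hK
  have h1 := hmany m K hm1 (hp1.trans hK) hKm
  have h2 := hone m K 0 hm2 hmR (hp2.trans hK)
  have h3 : ((Icc 1 m).filter (fun c : ℕ => η * K / Real.log m ≤
      (((Icc 1 K).filter (fun t : ℕ => (c + m * t).Prime)).card : ℝ))) ⊆
      ((Icc 1 m).filter (fun c => (primeArgs c m K).Nonempty ∧ ∀ S ⊆ primeArgs c m K,
        ((outside S k (Real.log m ^ (B₁ + B₂))).card : ℝ) ≤ ε * (primeArgs c m K).card)) ∪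
      ((Ioc 0 (0 + m)).filter (fun c => ∃ S ⊆ primeArgs c m K,
        ε₁ * K / Real.log m < (outside S k (Real.log m ^ B₂)).card)) := by
    intro c hc
    rw [mem_filter, mem_Icc] at hc
    obtain ⟨hc1, hc2⟩ := hc
    rw [mem_union, mem_filter, mem_filter]
    by_cases hcS : ∃ S ⊆ primeArgs c m K, ε₁ * K / Real.log m < (outside S k (Real.log m ^ B₂)).card
    · right
      refine ⟨?_, hcS⟩
      rw [mem_Ioc]
      omega
    · left
      have hc3 : η * K / Real.log m ≤ ((primeArgs c m K).card : ℝ) := hc2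
      refine ⟨mem_Icc.2 hc1, ?_, fun S hS => ?_⟩
      · rw [← card_pos]
        have h4 : (0 : ℝ) < ((primeArgs c m K).card : ℝ) := lt_of_lt_of_le (by positivity) hc3
        exact_mod_cast h4
      · push Not at hcS
        have h5 := hcS S hS
        have h6 : ((outside S k (Real.log m ^ (B₁ + B₂))).card : ℝ) ≤
            ((outside S k (Real.log m ^ B₂)).card : ℝ) := by
          exact_mod_cast outside_mono S k hp2
        refine h6.trans (h5.trans ?_)
        calc ε₁ * K / Real.log m ≤ (ε * η) * K / Real.log m := by gcongr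
          _ = ε * (η * K / Real.log m) := by ring
          _ ≤ ε * (primeArgs c m K).card := mul_le_mul_of_nonneg_left hc3 hε.le
  have h4 := (card_le_card h3).trans (card_union_le _ _)
  have h5 : (((Icc 1 m).filter (fun c : ℕ => η * K / Real.log m ≤
      (((Icc 1 K).filter (fun t : ℕ => (c + m * t).Prime)).card : ℝ))).card : ℝ) ≤
      (((Icc 1 m).filter (fun c => (primeArgs c m K).Nonempty ∧ ∀ S ⊆ primeArgs c m K,
        ((outside S k (Real.log m ^ (B₁ + B₂))).card : ℝ) ≤ ε * (primeArgs c m K).card)).card : ℝ) +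
      (((Ioc 0 (0 + m)).filter (fun c => ∃ S ⊆ primeArgs c m K,
        ε₁ * K / Real.log m < (outside S k (Real.log m ^ B₂)).card)).card : ℝ) := by
    exact_mod_cast h4
  have hφ : (0 : ℝ) ≤ (Nat.totient m : ℝ) := Nat.cast_nonneg _
  have h6 : ε₁ * (Nat.totient m : ℝ) ≤ ε / 2 * (Nat.totient m : ℝ) := mul_le_mul_of_nonneg_right hε₁1 hφ
  nlinarith

open Classical in
theorem part_two (k : ℕ) (ε : ℝ) (hk : 1 ≤ k) (hε : 0 < ε) : ∃ B H₀ : ℕ, ∀ H K : ℕ, H₀ ≤ H →
    Real.log H ^ B ≤ K → (K : ℝ) * Real.log H ^ B ≤ H →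
    (((Icc 1 H ×ˢ Icc 1 H).filter (fun x => x.1 ≤ x.2 ∧ Nat.Coprime x.1 x.2 ∧
      ¬ Holds x.1 x.2 k ε (Real.log H ^ B) K)).card : ℝ) ≤ ε * (H : ℝ) ^ 2 := by
  obtain ⟨ε₁, hε₁⟩ : ∃ ε₁ : ℝ, ε₁ = ε / 3 := ⟨_, rfl⟩
  have hε₁0 : 0 < ε₁ := by rw [hε₁]; positivity
  obtain ⟨E, B, H₁, hE, h⟩ := Pool.Agent.Y871.LW.alm1_all k hk ε₁ hε₁0
  obtain ⟨H₂, hphi⟩ := Pool.Agent.Y86.LW.t_PHI (ε / 3) (by positivity)
  refine ⟨B, max H₁ (max H₂ 3), fun H K hH hK1 hK2 => ?_⟩
  have hH1 : H₁ ≤ H := le_trans (le_max_left _ _) hH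
  have hH2 : H₂ ≤ H := le_trans (le_trans (le_max_left _ _) (le_max_right _ _)) hH
  have hH3 : 3 ≤ H := le_trans (le_trans (le_max_right _ _) (le_max_right _ _)) hH
  have hHr : (3 : ℝ) ≤ H := by exact_mod_cast hH3
  have h0 := h H hH1 K hK1 hK2
  obtain ⟨z, hz⟩ : ∃ z, z = ⌊Real.log H ^ E⌋₊ := ⟨_, rfl⟩
  have hbox : ((Pool.Agent.TH892.box 1 H).card : ℝ) = H * (2 * H + 1) := by
    have h1 : (Pool.Agent.TH892.box 1 H).card = H * (2 * H + 1) := by
      unfold Pool.Agent.TH892.box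
      rw [Fintype.card_piFinset, Fin.prod_univ_two]
      simp only [Fin.val_zero, Fin.val_one, if_true, zero_ne_one, if_false, Int.card_Icc]
      have h2 : ((H : ℤ) + 1 - -(H : ℤ)).toNat = 2 * H + 1 := by omega
      have h3 : ((H : ℤ) + 1 - 1).toNat = H := by omega
      rw [h2, h3, mul_comm]
    rw [h1]
    push_cast
    ring
  have hmain : ((Icc 1 H ×ˢ Icc 1 H).filter (fun x => x.1 ≤ x.2 ∧ Nat.Coprime x.1 x.2 ∧
      ¬ Holds x.1 x.2 k ε (Real.log H ^ B) K)).card ≤
      ((Pool.Agent.TH892.box 1 H).filter (fun c =>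
      (∀ p : ℕ, p.Prime → p ≤ ⌊Real.log H ^ E⌋₊ →
        Pool.Agent.H300R2.BH.rho (Pool.Agent.TH892.pol c) p ≠ p) ∧
      ¬ (0 < Pool.Agent.H300R2.BH.SS ⌊Real.log H ^ E⌋₊ (Pool.Agent.TH892.pol c) *
          Pool.Agent.H300R2.FB.la (Pool.Agent.TH892.pol c) K ∧
        |Pool.Agent.H300R2.FB.pa (Pool.Agent.TH892.pol c) K -
          Pool.Agent.H300R2.BH.SS ⌊Real.log H ^ E⌋₊ (Pool.Agent.TH892.pol c) *
          Pool.Agent.H300R2.FB.la (Pool.Agent.TH892.pol c) K| ≤
          ε₁ * (Pool.Agent.H300R2.BH.SS ⌊Real.log H ^ E⌋₊ (Pool.Agent.TH892.pol c) *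
          Pool.Agent.H300R2.FB.la (Pool.Agent.TH892.pol c) K) ∧
        Pool.Agent.Y871.LW.Cov (Pool.Agent.Y871.LW.pv (Pool.Agent.TH892.pol c) K) k (Real.log H ^ B)
          (ε₁ * Pool.Agent.H300R2.FB.pa (Pool.Agent.TH892.pol c) K)))).card := by
    apply card_le_card_of_injOn (fun x : ℕ × ℕ => (![(x.1 : ℤ), (x.2 : ℤ)] : Fin (1 + 1) → ℤ))
    · rintro ⟨c, m⟩ hx
      rw [mem_coe, mem_filter, mem_product, mem_Icc, mem_Icc] at hx
      obtain ⟨⟨⟨hc1, hcH⟩, hm1, hmH⟩, hcm, hcop, hnot⟩ := hx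
      simp only at hc1 hcH hm1 hmH hcm hcop hnot
      have hv : ∀ t : ℕ, (Pool.Agent.TH892.pol (![(c : ℤ), (m : ℤ)] : Fin (1 + 1) → ℤ)).eval (t : ℤ) =
          ((c + m * t : ℕ) : ℤ) := by
        intro t
        rw [Pool.Agent.TH892.pol_eval, Fin.sum_univ_two]
        simp
      obtain ⟨F, hF⟩ : ∃ F, F = Pool.Agent.TH892.pol (![(c : ℤ), (m : ℤ)] : Fin (1 + 1) → ℤ) := ⟨_, rfl⟩
      rw [← hF] at hv
      have hrho : ∀ p : ℕ, Pool.Agent.H300R2.BH.rho F p =
          ((range p).filter (fun t : ℕ => (p : ℤ) ∣ (c : ℤ) + (m : ℤ) * t)).card := by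
        intro p
        unfold Pool.Agent.H300R2.BH.rho
        simp only [hv]
        push_cast
        rfl
      have hpv : Pool.Agent.Y871.LW.pv F K = primeArgs c m K := by
        unfold Pool.Agent.Y871.LW.pv primeArgs
        simp only [hv, Int.natAbs_natCast]
      have hpa : Pool.Agent.H300R2.FB.pa F K = (primeArgs c m K).card := by
        unfold Pool.Agent.H300R2.FB.pa primeArgs
        simp only [hv, Int.natAbs_natCast]
      have hla : Pool.Agent.H300R2.FB.la F K = ∑ t ∈ Icc 1 K, 1 / Real.log ((c + m * t : ℕ) : ℝ) := by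
        unfold Pool.Agent.H300R2.FB.la
        have h1 : (Icc 1 K).filter (fun t : ℕ => 2 ≤ |F.eval (t : ℤ)|) = Icc 1 K := by
          apply filter_true_of_mem
          intro t ht
          rw [mem_Icc] at ht
          rw [hv, abs_of_nonneg (Int.natCast_nonneg _)]
          have h2 : 1 ≤ m * t := Nat.mul_pos hm1 ht.1
          have h3 : 2 ≤ c + m * t := by omega
          exact_mod_cast h3
        rw [h1]
        apply sum_congr rfl
        intro t _
        rw [hv, Int.cast_natCast, abs_of_nonneg (Nat.cast_nonneg _)]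
      rw [mem_coe, mem_filter]
      simp only
      rw [← hF]
      refine ⟨?_, ?_, ?_⟩
      · unfold Pool.Agent.TH892.box
        rw [Fintype.mem_piFinset]
        intro i
        fin_cases i
        · simp
          omega
        · simp
          omega
      · intro p hp _ hrp
        rw [hrho] at hrp
        have h1 : (range p).filter (fun t : ℕ => (p : ℤ) ∣ (c : ℤ) + (m : ℤ) * t) = range p := by
          apply eq_of_subset_of_card_le (filter_subset _ _)
          rw [hrp, card_range]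
        have h2 : 0 ∈ (range p).filter (fun t : ℕ => (p : ℤ) ∣ (c : ℤ) + (m : ℤ) * t) := by
          rw [h1, mem_range]
          exact hp.pos
        have h3 : 1 ∈ (range p).filter (fun t : ℕ => (p : ℤ) ∣ (c : ℤ) + (m : ℤ) * t) := by
          rw [h1, mem_range]
          exact hp.one_lt
        have h4 := (mem_filter.1 h2).2
        have h5 := (mem_filter.1 h3).2
        simp only [Nat.cast_zero, mul_zero, add_zero, Nat.cast_one, mul_one] at h4 h5
        have h6 : (p : ℤ) ∣ (m : ℤ) := (dvd_add_right h4).1 h5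
        have h7 : p ∣ c := by exact_mod_cast h4
        have h8 : p ∣ m := by exact_mod_cast h6
        exact hp.one_lt.ne' (Nat.dvd_one.1 (hcop ▸ Nat.dvd_gcd h7 h8))
      · intro h1
        apply hnot
        rw [← hz] at h1
        have hP := hphi H hH2 E hE (c : ℤ) (m : ℤ) (by exact_mod_cast hm1) (by exact_mod_cast hmH)
          (Nat.isCoprime_iff_coprime.2 hcop) (Pool.Agent.H300R2.BH.SS z F)
          (by
            unfold Pool.Agent.H300R2.BH.SS
            simp only [hrho]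
            rw [hz])
        rw [hpv, hpa, hla] at h1
        obtain ⟨h2, h3, h4⟩ := h1
        obtain ⟨P, hPd⟩ : ∃ P, P = Pool.Agent.H300R2.BH.SS z F := ⟨_, rfl⟩
        obtain ⟨L, hL⟩ : ∃ L : ℝ, L = ∑ t ∈ Icc 1 K, 1 / Real.log ((c + m * t : ℕ) : ℝ) := ⟨_, rfl⟩
        obtain ⟨M, hM⟩ : ∃ M : ℝ, M = (m : ℝ) / (Nat.totient m : ℝ) := ⟨_, rfl⟩
        rw [Int.toNat_natCast, Int.cast_natCast, ← hM, ← hPd] at hP
        rw [← hPd, ← hL] at h2 h3
        have hex : expected c m K = M * L := by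
          unfold expected
          rw [hM, hL]
        have hL0 : 0 ≤ L := by
          rw [hL]
          apply sum_nonneg
          intro t _
          exact div_nonneg zero_le_one (Real.log_natCast_nonneg _)
        have h5 : P * L ≤ M * L := mul_le_mul_of_nonneg_right hP.1 hL0
        have h6 : M * L ≤ (1 + ε / 3) * P * L := mul_le_mul_of_nonneg_right hP.2 hL0
        have h7 := abs_le.1 h3
        refine ⟨?_, fun S hS => ?_⟩
        · rw [hex, abs_le]
          rw [hε₁] at h7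
          constructor
          · nlinarith [h7.1, h7.2]
          · nlinarith [h7.1, h7.2]
        · refine (h4 S hS (outside S k (Real.log H ^ B)) (filter_subset _ _)
            (fun n hn => (mem_filter.1 hn).2)).trans ?_
          apply mul_le_mul_of_nonneg_right _ (Nat.cast_nonneg _)
          rw [hε₁]
          linarith
    · rintro ⟨c, m⟩ _ ⟨c', m'⟩ _ hcc
      have h1 := congrFun hcc 0
      have h2 := congrFun hcc 1
      simp only [Matrix.cons_val_zero, Matrix.cons_val_one] at h1 h2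
      rw [Prod.mk.injEq]
      exact ⟨by exact_mod_cast h1, by exact_mod_cast h2⟩
  have hmain' : (((Icc 1 H ×ˢ Icc 1 H).filter (fun x => x.1 ≤ x.2 ∧ Nat.Coprime x.1 x.2 ∧
      ¬ Holds x.1 x.2 k ε (Real.log H ^ B) K)).card : ℝ) ≤ _ := Nat.cast_le.2 hmain
  refine hmain'.trans (h0.trans ?_)
  rw [hbox, hε₁]
  have h9 : (H : ℝ) * (2 * H + 1) ≤ 3 * (H : ℝ) ^ 2 := by nlinarith
  calc ε / 3 * ((H : ℝ) * (2 * H + 1)) ≤ ε / 3 * (3 * (H : ℝ) ^ 2) :=
        mul_le_mul_of_nonneg_left h9 (by positivity)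
    _ = ε * (H : ℝ) ^ 2 := by ring

open Classical in
theorem part_every (ε : ℝ) (hε : 0 < ε) : ∃ κ : ℝ, 0 < κ ∧ ∀ (k : ℕ) (R : ℝ), 1 ≤ k →
    ∃ B m₀ : ℕ, ∀ m K : ℕ, m₀ ≤ m → (m : ℝ) ≤ R * Nat.totient m → Real.log m ^ B ≤ K →
    (∀ A : ℕ, (((Ioc A (A + m)).filter (fun c => ∃ S ⊆ primeArgs c m K,
      ε * K / Real.log m < (outside S k (Real.log m ^ B)).card)).card : ℝ) ≤ ε * Nat.totient m) ∧
    ((K : ℝ) ≤ (m : ℝ) ^ κ →
      (1 / 4 - ε) * (Nat.totient m : ℝ) ≤ (((Icc 1 m).filter (fun c => (primeArgs c m K).Nonempty ∧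
        ∀ S ⊆ primeArgs c m K,
          ((outside S k (Real.log m ^ B)).card : ℝ) ≤ ε * (primeArgs c m K).card)).card : ℝ)) := by
  obtain ⟨κ, hκ, h1⟩ := part_many ε hε
  refine ⟨κ, hκ, fun k R hk => ?_⟩
  obtain ⟨B₁, m₁, h2⟩ := h1 k R hk
  obtain ⟨B₂, m₂, h3⟩ := part_one k R ε hk hε
  refine ⟨B₁ + B₂, max (max m₁ m₂) 3, fun m K hm hmR hK => ?_⟩
  have hm1 : m₁ ≤ m := le_trans (le_trans (le_max_left _ _) (le_max_left _ _)) hm
  have hm2 : m₂ ≤ m := le_trans (le_trans (le_max_right _ _) (le_max_left _ _)) hm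
  have hm3 : 3 ≤ m := le_trans (le_max_right _ _) hm
  have hm3' : (3 : ℝ) ≤ m := by exact_mod_cast hm3
  have hl1 : 1 ≤ Real.log m := by
    rw [Real.le_log_iff_exp_le (by linarith)]
    linarith [Real.exp_one_lt_d9]
  have hp1 : Real.log m ^ B₁ ≤ Real.log m ^ (B₁ + B₂) := pow_le_pow_right₀ hl1 (by omega)
  have hp2 : Real.log m ^ B₂ ≤ Real.log m ^ (B₁ + B₂) := pow_le_pow_right₀ hl1 (by omega)
  constructor
  · intro A
    refine le_trans ?_ (h3 m K A hm2 hmR (hp2.trans hK))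
    rw [Nat.cast_le]
    apply card_le_card
    intro c hc
    rw [mem_filter] at hc ⊢
    obtain ⟨hc1, S, hS, hc2⟩ := hc
    refine ⟨hc1, S, hS, lt_of_lt_of_le hc2 ?_⟩
    exact_mod_cast outside_mono S k hp2
  · intro hKm
    refine (h2 m K hm1 hmR (hp1.trans hK) hKm).trans ?_
    rw [Nat.cast_le]
    apply card_le_card
    intro c hc
    rw [mem_filter] at hc ⊢
    obtain ⟨hc1, hc2, hc3⟩ := hc
    refine ⟨hc1, hc2, fun S hS => le_trans ?_ (hc3 S hS)⟩
    exact_mod_cast outside_mono S k hp1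

open Classical in
/-- **Szemerédi's theorem for the primes up to `m (log m) ^ B` in almost all residue classes.** -/
theorem result :
    (∀ ε : ℝ, 0 < ε → ∃ κ : ℝ, 0 < κ ∧ ∀ (k : ℕ) (R : ℝ), 1 ≤ k →
      ∃ B m₀ : ℕ, ∀ m K : ℕ, m₀ ≤ m → (m : ℝ) ≤ R * Nat.totient m → Real.log m ^ B ≤ K →
      (∀ A : ℕ, (((Ioc A (A + m)).filter (fun c => ∃ S ⊆ primeArgs c m K,
        ε * K / Real.log m < (outside S k (Real.log m ^ B)).card)).card : ℝ) ≤ ε * Nat.totient m) ∧
      ((K : ℝ) ≤ (m : ℝ) ^ κ →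
        (1 / 4 - ε) * (Nat.totient m : ℝ) ≤ (((Icc 1 m).filter (fun c => (primeArgs c m K).Nonempty ∧
          ∀ S ⊆ primeArgs c m K,
            ((outside S k (Real.log m ^ B)).card : ℝ) ≤ ε * (primeArgs c m K).card)).card : ℝ))) ∧
    (∀ (k : ℕ) (ε : ℝ), 1 ≤ k → 0 < ε → ∃ B H₀ : ℕ, ∀ H K : ℕ, H₀ ≤ H → Real.log H ^ B ≤ K →
      (K : ℝ) * Real.log H ^ B ≤ H →
      (((Icc 1 H ×ˢ Icc 1 H).filter (fun x => x.1 ≤ x.2 ∧ Nat.Coprime x.1 x.2 ∧
        ¬ Holds x.1 x.2 k ε (Real.log H ^ B) K)).card : ℝ) ≤ ε * (H : ℝ) ^ 2) :=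
  ⟨part_every, part_two⟩

end Pool.Agent.Results.MP_e1dc24_nt.AlmostAllClasses
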