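import Pool.Agent.TH847.LM.Poly
import Pool.Agent.Y848.RC.Geo

/-!
Progressions of residue classes which all contain a small prime: for every large modulus `m`, a
proportion `1 / 4 - ε` of the reduced classes `c` in every interval of length at least
`m / (log m) ^ C` satisfy `p(c, m) ≤ m (log m) ^ B` and lie in `k`-term progressions, with common
difference at most `(log log m) ^ B'`, of such classes of the interval.
-/

set_option autoImplicit false

namespace Pool.Agent.Results.MP_e1dc24_nt.ProgressionsOfClasses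

open Finset

/-- `c` is prime to `m` and `p(c, m) ≤ m (log m) ^ B` -/
def Small (m B c : ℕ) : Prop :=
  c.Coprime m ∧ ∃ p : ℕ, p.Prime ∧ p ≡ c [MOD m] ∧ (p : ℝ) ≤ m * Real.log m ^ B

/-- `c` is a member of a `k`-term arithmetic progression contained in `S` with common difference
between `1` and `D` -/
def InAP (k : ℕ) (D : ℝ) (S : Set ℕ) (c : ℕ) : Prop :=
  ∃ a d i : ℕ, 1 ≤ d ∧ (d : ℝ) ≤ D ∧ i < k ∧ c = a + i * d ∧ ∀ j < k, a + j * d ∈ S

/-- `c` is a member of a `k`-term geometric progression modulo `m` contained in `S`, with ratio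
`g ^ r`, `1 ≤ r ≤ R` (classes are represented by their least nonnegative residues) -/
def InGP (k R m g : ℕ) (S : Set ℕ) (c : ℕ) : Prop :=
  ∃ a r i : ℕ, 1 ≤ r ∧ r ≤ R ∧ i < k ∧ c = a * g ^ (r * i) % m ∧ ∀ j < k, a * g ^ (r * j) % m ∈ S

/-- Let `k ≥ 2`, `C ≥ 0`, `ε, θ > 0`. There are `B`, `B'`, `R` such that for every large modulus `m`:

(1) every interval `(x, x + H]` with `m / (log m) ^ C ≤ H ≤ m` contains at least
`(1 / 4 - ε) (φ(m) / m) H` integers `c` prime to `m` with `p(c, m) ≤ m (log m) ^ B` which moreover are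
members of `k`-term progressions of such integers of this interval, with differences at most
`(log log m) ^ B'`;

(2) for every interval `(x, x + H]` with `H ≥ m ^ θ` and every set `S` of integers of the interval which
are prime to `m`, all the members of `S` but at most `ε (φ(m) / m) H` of them are members of `k`-term
progressions in `S` with differences at most `(log log m) ^ B'`;

(3) for every `g` prime to `m`, at least `(1 / 4 - ε) φ(m)` reduced classes `c` modulo `m` satisfy
`p(c, m) ≤ m (log m) ^ B` and are members of `k`-term geometric progressions of such classes with a ratio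
`g ^ r`, `1 ≤ r ≤ R`;

(4) for every `g` prime to `m` and every set `S` of reduced classes modulo `m`, all the members of `S` but
at most `ε φ(m)` of them are members of such geometric progressions in `S`. -/
theorem result (k : ℕ) (hk : 2 ≤ k) (C : ℕ) (ε θ : ℝ) (hε : 0 < ε) (hθ : 0 < θ) :
    ∃ B B' R m₀ : ℕ, ∀ m : ℕ, m₀ ≤ m →
    (∀ x H : ℕ, (m : ℝ) / Real.log m ^ C ≤ H → H ≤ m →
      (1 / 4 - ε) * ((Nat.totient m : ℝ) / m * H) ≤
        ({c : ℕ | x < c ∧ c ≤ x + H ∧ Small m B c ∧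
          InAP k (Real.log (Real.log m) ^ B') {n : ℕ | x < n ∧ n ≤ x + H ∧ Small m B n} c}.ncard : ℝ)) ∧
    (∀ x H : ℕ, (m : ℝ) ^ θ ≤ H → ∀ S : Finset ℕ, (∀ n ∈ S, x < n ∧ n ≤ x + H ∧ n.Coprime m) →
      ({c : ℕ | c ∈ S ∧ ¬ InAP k (Real.log (Real.log m) ^ B') S c}.ncard : ℝ) ≤
        ε * ((Nat.totient m : ℝ) / m * H)) ∧
    (∀ g : ℕ, g.Coprime m →
      (1 / 4 - ε) * (Nat.totient m : ℝ) ≤
        ({c : ℕ | c < m ∧ Small m B c ∧ InGP k R m g {n : ℕ | n < m ∧ Small m B n} c}.ncard : ℝ)) ∧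
    (∀ g : ℕ, g.Coprime m → ∀ S : Finset ℕ, (∀ n ∈ S, n < m ∧ n.Coprime m) →
      ({c : ℕ | c ∈ S ∧ ¬ InGP k R m g S c}.ncard : ℝ) ≤ ε * (Nat.totient m : ℝ)) := by
  classical
  obtain ⟨B, hB⟩ := Pool.Agent.TH847.LM.poly (ε / 2) (by positivity) C
  obtain ⟨m₁, hm₁⟩ := Filter.eventually_atTop.1 hB
  obtain ⟨B', m₂, hm₂⟩ := Pool.Agent.Y848.RC.her_ap k hk (ε / 2) (min θ (1 / 2)) (by positivity)
    (lt_min hθ (by norm_num))
  obtain ⟨R, hR⟩ := Pool.Agent.Y848.RC.her_gp k hk (ε / 2) (by positivity)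
  -- `m ^ (1/2) ≤ m / (log m) ^ C`
  have hev : ∀ᶠ m : ℕ in Filter.atTop, (m : ℝ) ^ (1 / 2 : ℝ) ≤ m / Real.log m ^ C := by
    have h4 : ∀ᶠ x : ℝ in Filter.atTop, ‖Real.log x ^ C‖ ≤ 1 * ‖x ^ (1 / 2 : ℝ)‖ := by
      have h5 := (isLittleO_log_rpow_rpow_atTop (s := (1 / 2 : ℝ)) (C : ℝ) (by norm_num)).bound
        (show (0 : ℝ) < 1 by norm_num)
      filter_upwards [h5] with x hx
      rw [Real.rpow_natCast] at hx
      exact hx
    filter_upwards [tendsto_natCast_atTop_atTop (R := ℝ) |>.eventually h4,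
      (Real.tendsto_log_atTop.comp tendsto_natCast_atTop_atTop).eventually_ge_atTop 1,
      Filter.eventually_ge_atTop 1] with m hm hm1 hm2
    have hl1 : (1 : ℝ) ≤ Real.log m := hm1
    have hm0 : (0 : ℝ) < m := by exact_mod_cast hm2
    rw [one_mul, Real.norm_of_nonneg (by positivity), Real.norm_of_nonneg (by positivity)] at hm
    rw [le_div_iff₀ (by positivity)]
    calc (m : ℝ) ^ (1 / 2 : ℝ) * Real.log m ^ C ≤ (m : ℝ) ^ (1 / 2 : ℝ) * (m : ℝ) ^ (1 / 2 : ℝ) := by gcongr
      _ = m := by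
        rw [← Real.rpow_add hm0]
        norm_num
  obtain ⟨m₃, hm₃⟩ := Filter.eventually_atTop.1 (hev.and (Filter.eventually_ge_atTop 3))
  refine ⟨B, B', R, max m₁ (max m₂ m₃), ?_⟩
  intro m hm
  have hmm1 : m₁ ≤ m := (le_max_left _ _).trans hm
  have hmm2 : m₂ ≤ m := (le_max_left _ _).trans ((le_max_right _ _).trans hm)
  have hmm3 : m₃ ≤ m := (le_max_right _ _).trans ((le_max_right _ _).trans hm)
  obtain ⟨hlogm, hm3⟩ := hm₃ m hmm3
  have hm0 : (0 : ℝ) < m := by exact_mod_cast (show 0 < m by omega)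
  have hm1 : (1 : ℝ) ≤ m := by exact_mod_cast (show 1 ≤ m by omega)
  have hl0 : 0 ≤ Real.log m := Real.log_nonneg hm1
  have hφ : 0 ≤ (m.totient : ℝ) / m := by positivity
  have hher := hm₂ m hmm2
  have hAPeq : ∀ (D : ℝ) (S : Set ℕ) (c : ℕ), InAP k D S c ↔ Pool.Agent.Y848.RC.InAP k D S c :=
    fun _ _ _ => Iff.rfl
  have hGPeq : ∀ (g : ℕ) (S : Set ℕ) (c : ℕ), InGP k R m g S c ↔ Pool.Agent.Y848.RC.InGP k R m g S c :=
    fun _ _ _ => Iff.rfl
  -- the common step
  have hlow : ∀ (S : Finset ℕ) (Q : ℕ → Prop) (b t : ℝ), b ≤ S.card →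
      ((S.filter (fun c => ¬ Q c)).card : ℝ) ≤ t → b - t ≤ ({c : ℕ | c ∈ S ∧ Q c}.ncard : ℝ) := by
    intro S Q b t hb ht
    have h1 := card_filter_add_card_filter_not (s := S) Q
    have h2 : ({c : ℕ | c ∈ S ∧ Q c}.ncard) = (S.filter Q).card := by
      rw [← Set.ncard_coe_finset]
      congr 1
      ext c
      simp
    rw [h2]
    have h3 : ((S.filter Q).card : ℝ) + (S.filter (fun c => ¬ Q c)).card = S.card := by exact_mod_cast h1
    linarith
  refine ⟨?_, ?_, ?_, ?_⟩
  · intro x H hH hHm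
    obtain ⟨S, hS⟩ : ∃ S : Finset ℕ, S = (Ioc x (x + H)).filter (fun c => Small m B c) := ⟨_, rfl⟩
    have h1 : (1 / 4 - ε / 2) * ((m.totient : ℝ) / m * H) ≤ S.card := by
      refine ((hm₁ m hmm1).1 x H hH hHm).trans (le_of_eq ?_)
      rw [hS]
      rfl
    have hHθ : (m : ℝ) ^ (min θ (1 / 2)) ≤ H := by
      refine le_trans ?_ (hlogm.trans hH)
      exact Real.rpow_le_rpow_of_exponent_le hm1 (min_le_right _ _)
    have hSm : ∀ n : ℕ, n ∈ S ↔ x < n ∧ n ≤ x + H ∧ Small m B n := by
      intro n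
      rw [hS, mem_filter, mem_Ioc, and_assoc]
    have h2 := hher x H hHθ S (fun n hn => by
      have h3 := (hSm n).1 hn
      exact ⟨h3.1, h3.2.1, h3.2.2.1⟩)
    have h3 := hlow S (fun c => Pool.Agent.Y848.RC.InAP k (Real.log (Real.log m) ^ B') S c) _ _ h1 h2
    have h4 : {c : ℕ | c ∈ S ∧ Pool.Agent.Y848.RC.InAP k (Real.log (Real.log m) ^ B') S c} =
        {c : ℕ | x < c ∧ c ≤ x + H ∧ Small m B c ∧
          InAP k (Real.log (Real.log m) ^ B') {n : ℕ | x < n ∧ n ≤ x + H ∧ Small m B n} c} := by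
      have h5 : (S : Set ℕ) = {n : ℕ | x < n ∧ n ≤ x + H ∧ Small m B n} := by
        ext n
        rw [mem_coe, hSm]
        rfl
      rw [h5]
      ext c
      rw [Set.mem_ofPred_eq, Set.mem_ofPred_eq, hSm, hAPeq]
      tauto
    rw [h4] at h3
    refine le_trans (le_of_eq ?_) h3
    ring
  · intro x H hH S hS
    have hHθ : (m : ℝ) ^ (min θ (1 / 2)) ≤ H :=
      (Real.rpow_le_rpow_of_exponent_le hm1 (min_le_left _ _)).trans hH
    have h2 := hher x H hHθ S hS
    have h3 : {c : ℕ | c ∈ S ∧ ¬ InAP k (Real.log (Real.log m) ^ B') S c}.ncard =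
        (S.filter (fun c => ¬ Pool.Agent.Y848.RC.InAP k (Real.log (Real.log m) ^ B') S c)).card := by
      rw [← Set.ncard_coe_finset]
      congr 1
      ext c
      simp [hAPeq]
    rw [h3]
    refine h2.trans ?_
    apply mul_le_mul_of_nonneg_right (by linarith)
    positivity
  · intro g hg
    obtain ⟨S, hS⟩ : ∃ S : Finset ℕ, S = (range m).filter (fun c => Small m B c) := ⟨_, rfl⟩
    have hSm : ∀ n : ℕ, n ∈ S ↔ n < m ∧ Small m B n := by
      intro n
      rw [hS, mem_filter, mem_range]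
    have h1 : (1 / 4 - ε / 2) * (m.totient : ℝ) ≤ S.card := by
      have h2 := (hm₁ m hmm1).1 0 m (by
        apply div_le_self hm0.le
        apply one_le_pow₀
        have h3 : Real.exp 1 ≤ m := by
          have h4 := Real.exp_one_lt_d9
          have h5 : (3 : ℝ) ≤ m := by exact_mod_cast hm3
          linarith
        rw [← Real.log_exp 1]
        exact Real.log_le_log (Real.exp_pos 1) h3) le_rfl
      rw [div_mul_cancel₀ _ hm0.ne'] at h2
      refine h2.trans ?_
      rw [hS]
      have h4 : ((Ioc 0 (0 + m)).filter (fun c => Pool.Agent.TH847.LM.Good m B c)) =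
          ((range m).filter (fun c => Small m B c)) := by
        ext c
        rw [mem_filter, mem_filter, mem_Ioc, mem_range, Nat.zero_add]
        have hnot0 : ∀ c : ℕ, c.Coprime m → c ≠ 0 ∧ c ≠ m := by
          intro c hc
          constructor
          · rintro rfl
            rw [Nat.coprime_zero_left] at hc
            omega
          · rintro rfl
            rw [Nat.coprime_self] at hc
            omega
        constructor
        · rintro ⟨h5, h6⟩
          have h7 := hnot0 c h6.1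
          exact ⟨by omega, h6⟩
        · rintro ⟨h5, h6⟩
          have h7 := hnot0 c h6.1
          exact ⟨⟨by omega, by omega⟩, h6⟩
      exact_mod_cast le_of_eq (congrArg card h4)
    have h2 := hR m (by omega) g hg S (fun n hn => by
      have h3 := (hSm n).1 hn
      exact ⟨h3.1, h3.2.1⟩)
    have h3 := hlow S (fun c => Pool.Agent.Y848.RC.InGP k R m g S c) _ _ h1 h2
    have h4 : {c : ℕ | c ∈ S ∧ Pool.Agent.Y848.RC.InGP k R m g S c} =
        {c : ℕ | c < m ∧ Small m B c ∧ InGP k R m g {n : ℕ | n < m ∧ Small m B n} c} := by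
      have h5 : (S : Set ℕ) = {n : ℕ | n < m ∧ Small m B n} := by
        ext n
        rw [mem_coe, hSm]
        rfl
      rw [h5]
      ext c
      rw [Set.mem_ofPred_eq, Set.mem_ofPred_eq, hSm, hGPeq]
      tauto
    rw [h4] at h3
    refine le_trans (le_of_eq ?_) h3
    ring
  · intro g hg S hS
    have h2 := hR m (by omega) g hg S hS
    have h3 : {c : ℕ | c ∈ S ∧ ¬ InGP k R m g S c}.ncard =
        (S.filter (fun c => ¬ Pool.Agent.Y848.RC.InGP k R m g S c)).card := by
      rw [← Set.ncard_coe_finset]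
      congr 1
      ext c
      simp [hGPeq]
    rw [h3]
    refine h2.trans ?_
    apply mul_le_mul_of_nonneg_right (by linarith)
    positivity

end Pool.Agent.Results.MP_e1dc24_nt.ProgressionsOfClasses
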