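import Pool.Agent.Y829.LP6

/-!
# Sieve weights on the residue classes to an arbitrary modulus find the expected number of small primes

For EVERY modulus `m` the reduced residue classes `n` modulo `m` are tested against sieve weights `w(n)` of level up to
`m^(1/2)` divided by a power of `log m`.  In every block `J₀ < j ≤ J₀ + J` of length `J ≥ log m (log log m)^3`, within
`j ≤ (log m)^A`, the primes `n + j m` are as frequent as expected, on average with respect to the weight.

Design and proof: helper829.  Used: the Bombieri-Vinogradov theorem, the prime number theorem with an error term and the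
fundamental lemma of the starting repository.
-/

set_option autoImplicit false

open Finset

namespace Pool.Agent.Results.MP_e1dc24_nt.SieveWeightsOnClasses

/-- `w(n) = ∑_{d ≤ Q} c_d(n mod d)` -/
noncomputable def weight (Q : ℕ) (c : ℕ → ℕ → ℝ) (n : ℕ) : ℝ := ∑ d ∈ Icc 1 Q, c d (n % d)

/-- `s(d) = ∑_{a mod d} |c_d(a)|` -/
noncomputable def size (c : ℕ → ℕ → ℝ) (d : ℕ) : ℝ := ∑ a ∈ range d, |c d a|

/-- the reduced residue classes modulo `m`, represented in `(m, 2m]` -/
def classes (m : ℕ) : Finset ℕ := (Ioc m (2 * m)).filter (fun n => n.Coprime m)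

/-- the mass of the weight on the reduced residue classes -/
noncomputable def mass (m Q : ℕ) (c : ℕ → ℕ → ℝ) : ℝ := ∑ n ∈ classes m, weight Q c n

/-- the number of primes `n + j m` with `J₀ < j ≤ J₀ + J` -/
def primesIn (m J₀ J n : ℕ) : ℕ := ((Ioc J₀ (J₀ + J)).filter (fun j => (n + j * m).Prime)).card

/-- the hypotheses on the weight -/
def Good (K B m Q : ℕ) (c : ℕ → ℕ → ℝ) : Prop :=
  1 ≤ Q ∧ (Q : ℝ) ^ 2 * Real.log m ^ B ≤ m ∧ (∀ n, 0 ≤ weight Q c n) ∧
    ∑ d ∈ Icc 1 Q, size c d ^ 2 / d ≤ Real.log m ^ K ∧ m / Real.log m ^ K ≤ mass m Q c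

/-- Let `K`, `A` be natural numbers and `ε > 0`. There are `B` and `m₀` such that for every modulus `m ≥ m₀`, every `Good`
weight `w` and all `J₀`, `J` with `J ≥ log m (log log m)^3` and `J₀ + J ≤ (log m)^A` the mean with respect to `w` of the
number of primes `n + j m`, `J₀ < j ≤ J₀ + J`, over the reduced classes `n` modulo `m` is `(m / φ(m)) J / log m`, the
expected value, up to a relative error at most `ε`. -/
theorem result : ∀ (K A : ℕ) (ε : ℝ), 0 < ε → ∃ B m₀ : ℕ, ∀ m : ℕ, m₀ ≤ m → ∀ (Q : ℕ) (c : ℕ → ℕ → ℝ),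
    Good K B m Q c → ∀ J₀ J : ℕ, Real.log m * Real.log (Real.log m) ^ 3 ≤ J → ((J₀ + J : ℕ) : ℝ) ≤ Real.log m ^ A →
      |∑ n ∈ classes m, weight Q c n * primesIn m J₀ J n - m / m.totient * (J / Real.log m) * mass m Q c| ≤
        ε * (m / m.totient * (J / Real.log m) * mass m Q c) := by
  classical
  intro K A ε hε
  obtain ⟨b, hb⟩ := exists_pow_lt_of_lt_one hε (show (1 / 2 : ℝ) < 1 by norm_num)
  obtain ⟨B, m₀, h⟩ := Pool.Agent.Y829.LP.classes K A b
  refine ⟨B, max m₀ 1, ?_⟩
  intro m hm Q c hc J₀ J hJ hJA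
  obtain ⟨g1, g2, g3, g4, g5⟩ := hc
  have hm1 : 1 ≤ m := (le_max_right _ _).trans hm
  have hmass : Pool.Agent.Y829.LP.WW Q m c = mass m Q c := by
    unfold Pool.Agent.Y829.LP.WW mass classes
    rw [sum_filter]
    apply sum_congr rfl
    intro n _
    by_cases h1 : n.Coprime m
    · rw [if_pos h1, if_pos h1, mul_one]; rfl
    · rw [if_neg h1, if_neg h1, mul_zero]
  have hsum : ∑ n ∈ classes m, weight Q c n * (primesIn m J₀ J n : ℝ) =
      ∑ n ∈ Ioc m (2 * m), Pool.Agent.Y829.RP.wt Q c n *
        (((Ioc J₀ (J₀ + J)).filter (fun j => (n + j * m).Prime)).card : ℝ) := by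
    unfold classes
    rw [sum_filter]
    apply sum_congr rfl
    intro n hn
    rw [mem_Ioc] at hn
    by_cases h1 : n.Coprime m
    · rw [if_pos h1]; rfl
    · rw [if_neg h1]
      have h2 : (Ioc J₀ (J₀ + J)).filter (fun j => (n + j * m).Prime) = ∅ := by
        rw [filter_eq_empty_iff]
        intro j _ hp
        rw [Nat.Prime.not_coprime_iff_dvd] at h1
        obtain ⟨q, hq, hqn, hqm⟩ := h1
        have h3 : q ∣ n + j * m := dvd_add hqn (hqm.mul_left j)
        have h4 : q = n + j * m := (Nat.prime_dvd_prime_iff_eq hq hp).1 h3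
        have h5 : q ≤ m := Nat.le_of_dvd (by omega) hqm
        have h6 : n ≤ n + j * m := Nat.le_add_right _ _
        omega
      rw [h2, card_empty, Nat.cast_zero, mul_zero]
  have h1 := h m ((le_max_left _ _).trans hm) J₀ J Q hJ hJA g1 g2 c g3 g4 (by rw [hmass]; exact g5)
  rw [hmass] at h1
  have e1 : (J : ℝ) / Real.log m * (m / m.totient) * mass m Q c = m / m.totient * (J / Real.log m) * mass m Q c := by
    ring
  rw [e1] at h1
  rw [hsum]
  refine h1.trans ?_
  apply mul_le_mul_of_nonneg_right hb.le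
  have h2 : 0 ≤ mass m Q c := sum_nonneg fun n _ => g3 n
  have h3 : 0 ≤ Real.log m := Real.log_natCast_nonneg m
  positivity

end Pool.Agent.Results.MP_e1dc24_nt.SieveWeightsOnClasses
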